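import Mathlib
import Pool.Agent.Y859.MU.Fin

set_option autoImplicit false

/-!
# Odd congruent numbers in the classes `1, 3, 5, 7` modulo `8` with a prescribed divisor

Every odd squarefree `B ≤ X ^ (1/2 - ε)` divides at least `X ^ (1/2 - ε) / B` squarefree congruent
numbers `n ≤ X` of every odd class modulo `8`, the quotient `n / B` being almost prime.  By
Tunnell's theorem all these `n` satisfy `2 |A_n| = |B_n|`, so each of them is a case of Q1; for the
classes `1` and `3` modulo `8` the two counts are not identically zero.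

The proof is in `Pool/Agent/Y859/MU` (helper859), which treats all classes at once.
-/

namespace Pool.Agent.Results.MP_05dcdc_nt.EveryOddDivisor

/-- `n` is the area of a right triangle with rational sides -/
def IsCongruent (n : ℕ) : Prop :=
  ∃ a b c : ℚ, 0 < a ∧ 0 < b ∧ 0 < c ∧ a ^ 2 + b ^ 2 = c ^ 2 ∧ a * b / 2 = (n : ℚ)

/-- `m` has at most `R` prime factors (with multiplicity), the odd ones larger than
`X ^ (1 / R)` -/
def AlmostPrime (R X m : ℕ) : Prop :=
  m.primeFactorsList.length ≤ R ∧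
    ∀ p : ℕ, p.Prime → p ≠ 2 → p ∣ m → (X : ℝ) ^ (1 / (R : ℝ)) < (p : ℝ)

/-- **Every odd squarefree `B ≤ X ^ (1/2 - ε)` divides many squarefree congruent numbers `n ≤ X`
in each of the classes `1, 3, 5, 7` modulo `8`.** -/
theorem result (ε : ℝ) (hε : 0 < ε) (hε1 : ε ≤ 1 / 2) : ∃ R X₀ : ℕ, 1 ≤ R ∧ ∀ X : ℕ, X₀ ≤ X →
    ∀ B : ℕ, Squarefree B → Odd B → (B : ℝ) ≤ (X : ℝ) ^ (1 / 2 - ε) →
      ∀ r : ℕ, Odd r → r < 8 → (X : ℝ) ^ (1 / 2 - ε) / B ≤
        ({n : ℕ | n ≤ X ∧ n % 8 = r ∧ Squarefree n ∧ IsCongruent n ∧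
          ∃ m, n = B * m ∧ AlmostPrime R X m}.ncard : ℝ) := by
  obtain ⟨R, X0, hR, h⟩ := Pool.Agent.Y859.MU.main ε hε hε1
  exact ⟨R, X0, hR, fun X hX B hB hBo hBX r hr hr8 => (h X hX B hB hBX).1 hBo r hr hr8⟩

end Pool.Agent.Results.MP_05dcdc_nt.EveryOddDivisor
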