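import Pool.Agent.TH646.CA.Main

set_option autoImplicit false

/-!
# Many odd almost prime congruent numbers in intervals of length `X ^ θ`, `θ > 3 / 4`

Let `3/4 < θ ≤ 1`.  There is `R` such that for all large `X` and each of the four odd classes `r`
modulo `8` the interval `[X, X + X ^ θ]` contains at least `X ^ (θ - 1/2) / (log X) ^ 8` squarefree
congruent numbers `n ≡ r` modulo `8` with at most `R` prime factors, all of them larger than
`X ^ (1 / R)`.  In particular this holds in the classes `1` and `3`, in which the condition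
`2 |A_n| = |B_n|` of the problem is a real condition (by Tunnell's theorem the numbers found here
satisfy it).

Proof (`Pool.Agent.TH646.CA`, starting development).  The numbers are the values
`a b (a ^ 2 - 36 ^ 2 b ^ 2)` of a binary quartic form with `b` prime and `a` in a class modulo
`120`; the sieve is applied on the short segments of the lines `b = const` inside the region where
the form takes its values in the interval.
-/

namespace Pool.Agent.Results.MP_05dcdc_nt.ManyInIntervals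

/-- `n` is the area of a right triangle with rational sides -/
def IsCongruent (n : ℕ) : Prop :=
  ∃ a b c : ℚ, 0 < a ∧ 0 < b ∧ 0 < c ∧ a ^ 2 + b ^ 2 = c ^ 2 ∧ (n : ℚ) = a * b / 2

/-- **Many odd almost prime congruent numbers in short intervals, in every odd class modulo `8`.** -/
theorem result (θ : ℝ) (hθ : 3 / 4 < θ) (hθ1 : θ ≤ 1) :
    ∃ R : ℕ, 0 < R ∧ ∃ X₀ : ℝ, ∀ X : ℝ, X₀ ≤ X → ∀ r : ℕ, Odd r → r < 8 →
      X ^ (θ - 1 / 2) / Real.log X ^ 8 ≤
        (({n : ℕ | X ≤ n ∧ (n : ℝ) ≤ X + X ^ θ ∧ n % 8 = r ∧ Squarefree n ∧ IsCongruent n ∧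
          n.primeFactors.card ≤ R ∧
          ∀ p : ℕ, p.Prime → p ∣ n → X ^ (1 / (R : ℝ)) < p}.ncard : ℕ) : ℝ) := by
  obtain ⟨R, hR, X₀, h⟩ := Pool.Agent.TH646.CA.main θ hθ hθ1
  refine ⟨R, hR, X₀, fun X hX r hr hr8 => ?_⟩
  obtain ⟨κ, lam, s, e, hF⟩ : ∃ κ lam s e : ℤ, Pool.Agent.TH646.CA.Fam κ lam s e (r : ℤ) := by
    rw [Nat.odd_iff] at hr
    have hr4 : r = 1 ∨ r = 3 ∨ r = 5 ∨ r = 7 := by omega
    rcases hr4 with rfl | rfl | rfl | rfl
    · exact ⟨1, 36, 6, 17, by unfold Pool.Agent.TH646.CA.Fam; norm_num⟩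
    · exact ⟨1, 36, 6, 43, by unfold Pool.Agent.TH646.CA.Fam; norm_num⟩
    · exact ⟨1, 36, 6, 13, by unfold Pool.Agent.TH646.CA.Fam; norm_num⟩
    · exact ⟨1, 36, 6, 7, by unfold Pool.Agent.TH646.CA.Fam; norm_num⟩
  refine (h X hX κ lam s e r hF).trans ?_
  have hfin : {n : ℕ | X ≤ n ∧ (n : ℝ) ≤ X + X ^ θ ∧ n % 8 = r ∧ Squarefree n ∧ IsCongruent n ∧
      n.primeFactors.card ≤ R ∧
      ∀ p : ℕ, p.Prime → p ∣ n → X ^ (1 / (R : ℝ)) < p}.Finite := by
    apply (Set.finite_Iic ⌊X + X ^ θ⌋₊).subset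
    intro n hn
    exact Nat.le_floor hn.2.1
  have hsub : {n : ℕ | X ≤ n ∧ (n : ℝ) ≤ X + X ^ θ ∧ (n : ℤ) % 8 = (r : ℤ) ∧
      Squarefree n ∧ Pool.Agent.TH646.CA.Cong n ∧ n.primeFactors.card ≤ R ∧
      ∀ p : ℕ, p.Prime → p ∣ n → p = 2 ∨ X ^ (1 / (R : ℝ)) < p} ⊆
      {n : ℕ | X ≤ n ∧ (n : ℝ) ≤ X + X ^ θ ∧ n % 8 = r ∧ Squarefree n ∧ IsCongruent n ∧
        n.primeFactors.card ≤ R ∧
        ∀ p : ℕ, p.Prime → p ∣ n → X ^ (1 / (R : ℝ)) < p} := by
    rintro n ⟨h1, h2, h3, h4, h5, h6, h7⟩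
    have h3' : n % 8 = r := by exact_mod_cast h3
    refine ⟨h1, h2, h3', h4, ?_, h6, ?_⟩
    · obtain ⟨a, b, c, ha, hb, hc, g1, g2⟩ := h5
      exact ⟨a, b, c, ha, hb, hc, g1, g2.symm⟩
    · intro p hp hpn
      rcases h7 p hp hpn with rfl | h8
      · exfalso
        rw [Nat.odd_iff] at hr
        omega
      · exact h8
  exact_mod_cast Set.ncard_le_ncard hsub hfin

end Pool.Agent.Results.MP_05dcdc_nt.ManyInIntervals
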